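import Pool.Agent.helper23.TH.Spec

/-!
MP_26dbae_co, module EX1: few points of one colour at `x` (from GE, CD).
-/

set_option autoImplicit false

open scoped BigOperators Topology
open Filter

namespace Pool.Agent.helper23.TH

/-- taking classes is a ring homomorphism -/
noncomputable def EX1_clHom : (ℕ → Om) →+* Kst :=
  Filter.Germ.coeRingHom ((hyperfilter ℕ : Ultrafilter ℕ) : Filter ℕ)

theorem EX1_clHom_apply (x : ℕ → Om) : EX1_clHom x = cl x := rfl

theorem EX1_cl_add (x y : ℕ → Om) : cl (fun j => x j + y j) = cl x + cl y := rfl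

theorem EX1_cl_mul (x y : ℕ → Om) : cl (fun j => x j * y j) = cl x * cl y := rfl

theorem EX1_cl_sum {α : Type} (s : Finset α) (f : ℕ → α → Om) :
    cl (fun j => ∑ μ ∈ s, f j μ) = ∑ μ ∈ s, cl (fun j => f j μ) := by
  have h : (fun j => ∑ μ ∈ s, f j μ) = ∑ μ ∈ s, (fun j => f j μ) := by
    funext j; rw [Finset.sum_apply]
  rw [h, ← EX1_clHom_apply, map_sum]
  rfl

theorem EX1_cl_prod {α : Type} (s : Finset α) (f : ℕ → α → Om) :
    cl (fun j => ∏ μ ∈ s, f j μ) = ∏ μ ∈ s, cl (fun j => f j μ) := by
  have h : (fun j => ∏ μ ∈ s, f j μ) = ∏ μ ∈ s, (fun j => f j μ) := by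
    funext j; rw [Finset.prod_apply]
  rw [h, ← EX1_clHom_apply, map_prod]
  rfl

theorem EX1_cl_pow (x : ℕ → Om) (n : ℕ) : cl (fun j => x j ^ n) = cl x ^ n := by
  have h : (fun j => x j ^ n) = x ^ n := rfl
  rw [h, ← EX1_clHom_apply, map_pow]
  rfl

/-- the class of the colours is the colour of the classes -/
theorem EX1_cl_col {b m d : ℕ} (a : ℕ → Fin m → Mon b d → Om) (x x' : ℕ → Fin b → Om) (q : Fin m) :
    cl (fun j => col (a j) (x j) (x' j) q) =
      col (fun q μ => cl (fun j => a j q μ)) (fun i => cl (fun j => x j i))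
        (fun i => cl (fun j => x' j i)) q := by
  unfold col
  rw [EX1_cl_sum]
  refine Finset.sum_congr rfl fun μ _ => ?_
  rw [EX1_cl_mul]
  congr 1
  unfold ev
  rw [EX1_cl_prod]
  refine Finset.prod_congr rfl fun i _ => ?_
  rw [EX1_cl_pow]
  congr 1
  rcases i with i | ⟨i, i'⟩
  · exact EX1_cl_add _ _
  · simp only [gg]
    rw [EX1_cl_add, EX1_cl_mul, EX1_cl_mul]

theorem EX1_two_ne : (2 : Kst) ≠ 0 := by
  have h1 : (2 : ZMod 3) ≠ 0 := by decide
  have h2 : (algebraMap (ZMod 3) Kst) 2 ≠ 0 := by
    intro h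
    exact h1 ((algebraMap (ZMod 3) Kst).injective (by rw [h, map_zero]))
  rwa [map_ofNat] at h2

theorem EX1 (hGE : GE_stmt) (hCD : CD_stmt) : EX1_stmt := by
  intro b m d hbm hmd a hGen x c
  classical
  by_contra hcon
  push Not at hcon
  -- the family of sets
  let S : ℕ → Set (Fin b ⊕ Fin b → Om) := fun j =>
    (fun x' : Fin b → Om => Sum.elim (x j) x') '' {x' | x' ≠ x j ∧ col (a j) (x j) x' = c j}
  have hS : ∀ j : ℕ, (j : ℕ∞) < (S j).encard := by
    intro j
    have hinj : Function.Injective (fun x' : Fin b → Om => (Sum.elim (x j) x' : Fin b ⊕ Fin b → Om)) := by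
      intro u v huv
      funext i
      exact congrFun huv (Sum.inr i)
    rw [show (S j).encard = _ from hinj.encard_image _]
    exact hcon j
  obtain ⟨z, hz, κ, hind⟩ := hGE (Fin m × Mon b d) (Fin b ⊕ Fin b) (fun j q => a j q.1 q.2) S hGen hS
    (2 * m + 1)
  choose x' hx' hx'' using hz
  -- the points
  let X : Fin b → Kst := fun i => cl (fun j => x j i)
  let X' : Fin (2 * m + 1) → Fin b → Kst := fun t i => cl (fun j => x' t j i)
  let A : Fin m → Mon b d → Kst := fun q μ => cl (fun j => a j q μ)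
  let W : Finset (Fin b → Kst) := insert X (Finset.univ.image X')
  let E : Finset (Sym2 (Fin b → Kst)) := Finset.univ.image (fun t => s(X, X' t))
  have hcol : ∀ t, col A X (X' t) = fun q => cl (fun j => c j q) := by
    intro t
    funext q
    rw [← EX1_cl_col a x (x' t) q]
    congr 1
    funext j
    rw [(hx' t j).2]
  have hE1 : E.card ≤ 2 * m + 1 := by
    refine Finset.card_image_le.trans ?_
    simp
  have hEW : W.card ≤ E.card + 1 := by
    have h1 : W.card ≤ (Finset.univ.image X').card + 1 := Finset.card_insert_le _ _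
    have h2 : E = (Finset.univ.image X').image (fun w => s(X, w)) := by
      rw [Finset.image_image]; rfl
    have h3 : E.card = (Finset.univ.image X').card := by
      rw [h2]
      apply Finset.card_image_of_injective
      intro u v huv
      exact Sym2.congr_right.1 huv
    omega
  have himg : (E.image (colS A)).card ≤ 1 := by
    rw [Finset.card_le_one]
    intro u hu v hv
    obtain ⟨e, he, rfl⟩ := Finset.mem_image.1 hu
    obtain ⟨e', he', rfl⟩ := Finset.mem_image.1 hv
    obtain ⟨t, _, rfl⟩ := Finset.mem_image.1 he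
    obtain ⟨t', _, rfl⟩ := Finset.mem_image.1 he'
    show col A X (X' t) = col A X (X' t')
    rw [hcol, hcol]
  have hmem : ∀ e ∈ E, ∀ w ∈ e, w ∈ W := by
    intro e he w hw
    obtain ⟨t, _, rfl⟩ := Finset.mem_image.1 he
    rcases Sym2.mem_iff.1 hw with rfl | rfl
    · exact Finset.mem_insert_self _ _
    · exact Finset.mem_insert_of_mem (Finset.mem_image_of_mem _ (Finset.mem_univ _))
  have hy : ∀ t : Fin (2 * m + 1), ∃ w ∈ W, ∃ i, cl (fun j => z t j (κ t)) = w i := by
    intro t
    rcases hk : κ t with i | i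
    · refine ⟨X, Finset.mem_insert_self _ _, i, ?_⟩
      show _ = cl (fun j => x j i)
      congr 1
      funext j
      rw [← hx'' t j]
      rfl
    · refine ⟨X' t, Finset.mem_insert_of_mem (Finset.mem_image_of_mem _ (Finset.mem_univ _)), i, ?_⟩
      show _ = cl (fun j => x' t j i)
      congr 1
      funext j
      rw [← hx'' t j]
      rfl
  have hfin := hCD (ZMod 3) Kst EX1_two_ne b m d A W E hmem (by omega) (2 * m + 1)
    (fun t => cl (fun j => z t j (κ t))) hy hind
  have h1 : b * W.card ≤ m * (E.card + 1) := Nat.mul_le_mul hbm hEW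
  have h2 : m * (E.image (colS A)).card ≤ m * 1 := Nat.mul_le_mul_left m himg
  have h3 : m * (E.card + 1) = m * E.card + m := by ring
  omega

end Pool.Agent.helper23.TH
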