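import Pool.Agent.helper23.TH.Spec

/-!
MP_26dbae_co, module GC: greedy refinement to a proper colouring.
-/

set_option autoImplicit false

namespace Pool.Agent.helper23.TH

theorem GC_aux {V K : Type} [Fintype V] [DecidableEq V] (f : V → V → K) (C : ℕ)
    (hdeg : ∀ (x : V) (c : K), {x' : V | x' ≠ x ∧ f x x' = c}.encard ≤ (C : ℕ∞))
    (S : Finset (Sym2 V)) :
    ∃ g : Sym2 V → Fin (2 * C + 1), ∀ a b d : V, a ≠ b → a ≠ d → b ≠ d → s(a, b) ∈ S →
      s(a, d) ∈ S → f a b = f a d → g s(a, b) ≠ g s(a, d) := by
  classical
  induction S using Finset.induction_on with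
  | empty => exact ⟨fun _ => 0, by intro a b d _ _ _ h; simp at h⟩
  | @insert e S he ih =>
    obtain ⟨g, hg⟩ := ih
    induction e using Sym2.ind with
    | _ x y =>
    -- neighbours
    let Nb : V → K → Finset V := fun z c => Finset.univ.filter (fun z' => z' ≠ z ∧ f z z' = c)
    have hNb : ∀ z c, (Nb z c).card ≤ C := by
      intro z c
      have h := hdeg z c
      have e1 : {x' : V | x' ≠ z ∧ f z x' = c} = ((Nb z c : Finset V) : Set V) := by
        ext w; simp [Nb]
      rw [e1, Set.encard_coe_eq_coe_finsetCard] at h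
      exact_mod_cast h
    let B : Finset (Fin (2 * C + 1)) :=
      (Nb x (f x y)).image (fun z => g s(x, z)) ∪ (Nb y (f y x)).image (fun z => g s(y, z))
    have hB : B.card < 2 * C + 1 := by
      have h1 : B.card ≤ _ := Finset.card_union_le _ _
      have h2 := (Finset.card_image_le (s := Nb x (f x y)) (f := fun z => g s(x, z))).trans (hNb _ _)
      have h3 := (Finset.card_image_le (s := Nb y (f y x)) (f := fun z => g s(y, z))).trans (hNb _ _)
      omega
    obtain ⟨k, hk⟩ : ∃ k, k ∉ B := by
      by_contra hcon
      push Not at hcon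
      have : B = Finset.univ := Finset.eq_univ_iff_forall.2 hcon
      rw [this, Finset.card_univ, Fintype.card_fin] at hB
      omega
    have hk1 : ∀ z, z ≠ x → f x z = f x y → k ≠ g s(x, z) := by
      intro z hz hf hkk
      apply hk
      apply Finset.mem_union_left
      exact Finset.mem_image.2 ⟨z, by simp [Nb, hz, hf], hkk.symm⟩
    have hk2 : ∀ z, z ≠ y → f y z = f y x → k ≠ g s(y, z) := by
      intro z hz hf hkk
      apply hk
      apply Finset.mem_union_right
      exact Finset.mem_image.2 ⟨z, by simp [Nb, hz, hf], hkk.symm⟩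
    -- key: a new edge against an old edge
    have key : ∀ a b d : V, a ≠ b → a ≠ d → b ≠ d → s(a, b) = s(x, y) → f a b = f a d →
        k ≠ g s(a, d) := by
      intro a b d hab had hbd hs hf
      rcases Sym2.eq_iff.1 hs with ⟨h1, h2⟩ | ⟨h1, h2⟩
      · subst h1; subst h2
        exact hk1 d had.symm hf.symm
      · subst h1; subst h2
        exact hk2 d had.symm hf.symm
    have hne : ∀ a b d : V, b ≠ d → s(a, b) = s(x, y) → s(a, d) ≠ s(x, y) := by
      intro a b d hbd h1 h2
      exact hbd (Sym2.congr_right.1 (h1.trans h2.symm))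
    refine ⟨Function.update g s(x, y) k, ?_⟩
    intro a b d hab had hbd h1 h2 hf
    by_cases e1 : s(a, b) = s(x, y)
    · have e2 := hne a b d hbd e1
      rw [Function.update_of_ne e2, e1, Function.update_self]
      exact key a b d hab had hbd e1 hf
    · by_cases e2 : s(a, d) = s(x, y)
      · rw [Function.update_of_ne e1, e2, Function.update_self]
        exact (key a d b had hab hbd.symm e2 hf.symm).symm
      · rw [Function.update_of_ne e1, Function.update_of_ne e2]
        refine hg a b d hab had hbd ?_ ?_ hf
        · exact (Finset.mem_insert.1 h1).resolve_left e1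
        · exact (Finset.mem_insert.1 h2).resolve_left e2

theorem GC : GC_stmt := by
  intro V K _ f C hsymm hdeg
  classical
  have := Fintype.ofFinite V
  obtain ⟨g, hg⟩ := GC_aux f C hdeg Finset.univ
  refine ⟨fun a b => g s(a, b), ?_, ?_⟩
  · intro a b
    show (f a b, g s(a, b)) = (f b a, g s(b, a))
    rw [hsymm a b, Sym2.eq_swap]
  · intro a b d hab had hbd h
    have h1 : f a b = f a d := congrArg Prod.fst h
    have h2 : g s(a, b) = g s(a, d) := congrArg Prod.snd h
    exact hg a b d hab had hbd (Finset.mem_univ _) (Finset.mem_univ _) h1 h2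

end Pool.Agent.helper23.TH
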